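import Pool.Agent.U483.KT.Main

/-!
# The main theorems: Kuga-Satake motives, and Hodge classes in powers
-/

set_option autoImplicit false

open CategoryTheory CategoryTheory.Limits AlgebraicGeometry MonoidalCategory Pool.Agent.Y116.UV
  Pool.Agent.U483.KM Pool.Agent.U483.GU Pool.Agent.U483.KS

namespace Pool.Agent.U483.KT

universe w x y z

variable {k F : Type} [Field k] [Field F] {𝓜 : Type w} [Category.{x} 𝓜]
  [Preadditive 𝓜] [Linear F 𝓜] [HasBinaryBiproducts 𝓜] [MonoidalCategory 𝓜]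

/-- The motive `M` and the smooth projective `X`: the motive `h X` is generated by `M` if and only if a multiple of the
class of `X` is in the group generated by the classes of the smooth projective schemes with this property; more generally
for the motive `A` represented by a class `c`. -/
def GenCriterion (H : PureMotives.{w, x} k F 𝓜) (M : 𝓜) : Prop :=
  (∀ X : Var k, SmoothProjective X.1 → ∀ n : ℤ, n ≠ 0 →
    (Gen M (H.h X.1) ↔ n • cls X ∈ goodGroup fun Y => Gen M (H.h Y))) ∧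
  ∀ (c : K0 k) (A : 𝓜), Represents H c A → ∀ n : ℤ, n ≠ 0 →
    n • c ∈ (goodGroup fun Y => Gen M (H.h Y)) → Gen M A

/-- Let `KS X` be the motive of the Kuga-Satake variety of `X`. If a multiple of the class of `X` is generated by the products of
smooth projective schemes `Y` with `h Y` in `⟨KS X⟩`, or with `h Y` in `⟨KS Y⟩` and `KS Y` in `⟨KS X⟩`, then `h X` is
in `⟨KS X⟩`. -/
def KugaSatakeRing (H : PureMotives.{w, x} k F 𝓜) (KS : Sch k → 𝓜) : Prop :=
  ∀ X : Var k, SmoothProjective X.1 → ∀ B : Sch k → Prop, (∀ Y, B Y → SmoothProjective Y ∧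
    (Gen (KS X.1) (H.h Y) ∨ (Gen (KS Y) (H.h Y) ∧ Gen (KS X.1) (KS Y)))) →
    ∀ n : ℤ, n ≠ 0 → n • cls X ∈ products B → Gen (KS X.1) (H.h X.1)

/-- `n [X] = n [X']`, or more generally `n [X] 𝕃^m = n [X'] 𝕃^m`. -/
def ClassEq (H : PureMotives.{w, x} k F 𝓜) (T : Twists.{w, x} 𝓜) (X X' : Var k) : Prop :=
  ∃ n : ℤ, n ≠ 0 ∧ (n • cls X = n • cls X' ∨ ∃ (m : ℤ) (c c' : K0 k),
    Represents H c (H.h X.1 ⊗ T.T m) ∧ Represents H c' (H.h X'.1 ⊗ T.T m) ∧ n • c = n • c')

/-- Let `⟨KS X⟩ = ⟨KS X'⟩` contain the Tate motives. If the classes of `X` and `X'` satisfy `ClassEq` then `h X` is in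
`⟨KS X⟩` if and only if `h X'` is in `⟨KS X'⟩`. -/
def KugaSatakeInvariance (H : PureMotives.{w, x} k F 𝓜) (T : Twists.{w, x} 𝓜) (KS : Sch k → 𝓜) :
    Prop :=
  ∀ X X' : Var k, SmoothProjective X.1 → SmoothProjective X'.1 → Gen (KS X.1) (KS X'.1) →
    Gen (KS X'.1) (KS X.1) → (∀ m : ℤ, Gen (KS X.1) (T.T m)) → ClassEq H T X X' →
    (Gen (KS X.1) (H.h X.1) ↔ Gen (KS X'.1) (H.h X'.1))

/-- A multiple of the class of `Y` is generated by products of `X` and of smooth projective schemes whose motives are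
sums of Tate motives. Then `h Y` is a direct factor of a sum of twists of tensor powers of `h X`; if the Hodge classes
in the powers of `X` are algebraic, this is true for the powers of `Y`. -/
def PowersRing {ℋ : Type y} [Category.{z} ℋ] (H : PureMotives.{w, x} k F 𝓜) (R : 𝓜 ⥤ ℋ)
    (T : Twists.{w, x} 𝓜) : Prop :=
  ∀ X Y : Var k, SmoothProjective X.1 → SmoothProjective Y.1 → ∀ n : ℤ, n ≠ 0 →
    (n • cls Y ∈ products fun Z => Z = X.1 ∨
      (SmoothProjective Z ∧ Span (fun A => ∃ m : ℤ, A = T.T m) (H.h Z))) →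
    Span (fun A => ∃ (n : ℕ) (m : ℤ), A = pow (H.h X.1) n ⊗ T.T m) (H.h Y.1) ∧
      (FullPowers R T (H.h X.1) → FullPowers R T (H.h Y.1))

/-- If the classes of `X` and `X'` satisfy `ClassEq` then the Hodge classes in the powers of `X` are algebraic if and
only if this is true for `X'`. -/
def PowersInvariance {ℋ : Type y} [Category.{z} ℋ] (H : PureMotives.{w, x} k F 𝓜) (R : 𝓜 ⥤ ℋ)
    (T : Twists.{w, x} 𝓜) : Prop :=
  ∀ X X' : Var k, SmoothProjective X.1 → SmoothProjective X'.1 → ClassEq H T X X' →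
    (FullPowers R T (H.h X.1) ↔ FullPowers R T (H.h X'.1))

variable {H : PureMotives.{w, x} k F 𝓜}

theorem products_good (hT : IsTensor H) {P : 𝓜 → Prop} (hP : IsThick P)
    (hPt : ∀ A B, P A → P B → P (A ⊗ B)) {B : Sch k → Prop}
    (hB : ∀ Y, B Y → SmoothProjective Y ∧ P (H.h Y)) :
    products B ≤ goodGroup fun Y => P (H.h Y) := by
  refine (AddSubgroup.closure_le _).2 ?_
  rintro _ ⟨Z, hZ, rfl⟩
  refine (products_mem (fun {X Y} z hX hY h1 h2 => ?_) (fun X hX => ?_) hZ).2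
  · obtain ⟨h3, ⟨e⟩⟩ := hT z hX hY
    exact ⟨h3, thick_iso hP e.symm (hPt _ _ h1 h2)⟩
  · obtain ⟨h1, h2⟩ := hB X hX
    exact ⟨h1.ft, self_mem h1 h2⟩

theorem genCriterion (hz : ∃ C : 𝓜, IsZero C) (M : 𝓜) : GenCriterion H M := by
  refine ⟨fun X hX n hn => ⟨fun h => zsmul_mem (self_mem hX h) n, fun h =>
    mem_of_class H (thick_gen M) hz hX hn h⟩, fun c A hc n hn h =>
    mem_of_represents H (thick_gen M) hz hc hn h⟩

theorem kugaSatakeRing (hT : IsTensor H) (hz : ∃ C : 𝓜, IsZero C) (KS : Sch k → 𝓜) :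
    KugaSatakeRing H KS := by
  intro X hX B hB n hn h
  refine mem_of_class H (thick_gen (KS X.1)) hz hX hn
    (products_good hT (thick_gen (KS X.1)) Gen.tensor (fun Y hY => ?_) h)
  obtain ⟨h1, h2⟩ := hB Y hY
  exact ⟨h1, h2.elim id fun h3 => gen_trans h3.2 h3.1⟩

lemma classEq_symm {T : Twists.{w, x} 𝓜} {X X' : Var k} (h : ClassEq H T X X') :
    ClassEq H T X' X := by
  obtain ⟨n, hn, h | ⟨m, c, c', h1, h2, h3⟩⟩ := h
  · exact ⟨n, hn, Or.inl h.symm⟩
  · exact ⟨n, hn, Or.inr ⟨m, c', c, h2, h1, h3.symm⟩⟩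

/-- The transfer of a property of motives between `X` and `X'`. -/
theorem classEq_transfer (hz : ∃ C : 𝓜, IsZero C) {P : 𝓜 → Prop} (hP : IsThick P)
    {T : Twists.{w, x} 𝓜} (ht : ∀ (A : 𝓜) (m : ℤ), P A → P (A ⊗ T.T m))
    (ht' : ∀ (A : 𝓜) (m : ℤ), P (A ⊗ T.T m) → P A) {X X' : Var k} (hX : SmoothProjective X.1)
    (hX' : SmoothProjective X'.1) (h : ClassEq H T X X') (hPX : P (H.h X.1)) : P (H.h X'.1) := by
  obtain ⟨n, hn, h | ⟨m, c, c', h1, h2, h3⟩⟩ := h
  · refine mem_of_class H hP hz hX' hn ?_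
    rw [← h]
    exact zsmul_mem (self_mem (Q := fun Y => P (H.h Y)) hX hPX) n
  · exact ht' _ m (represents_compare H hP hz h1 h2 hn h3 (ht _ m hPX))

lemma untwist {P : 𝓜 → Prop} (hP : IsThick P) (hPt : ∀ A B, P A → P B → P (A ⊗ B))
    {T : Twists.{w, x} 𝓜} (hT : ∀ m : ℤ, P (T.T m)) (A : 𝓜) (m : ℤ) (h : P (A ⊗ T.T m)) : P A := by
  obtain ⟨e⟩ := T.add m (-m)
  obtain ⟨e0⟩ := T.unit
  rw [add_neg_cancel] at e
  exact thick_iso hP (α_ _ _ _ ≪≫ whiskerLeftIso A (e.symm ≪≫ e0) ≪≫ ρ_ A) (hPt _ _ h (hT (-m)))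

theorem kugaSatakeInvariance (hz : ∃ C : 𝓜, IsZero C) (T : Twists.{w, x} 𝓜) (KS : Sch k → 𝓜) :
    KugaSatakeInvariance H T KS := by
  intro X X' hX hX' h1 h2 hT h
  have key : ∀ {X X' : Var k}, SmoothProjective X.1 → SmoothProjective X'.1 →
      ClassEq H T X X' → ∀ M : 𝓜, (∀ m : ℤ, Gen M (T.T m)) → Gen M (H.h X.1) → Gen M (H.h X'.1) := by
    intro X X' hX hX' h M hT hM
    exact classEq_transfer hz (thick_gen M) (fun A m hA => Gen.tensor _ _ hA (hT m))
      (untwist (thick_gen M) Gen.tensor hT) hX hX' h hM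
  constructor
  · intro h3
    exact gen_trans h2 (key hX hX' h _ hT h3)
  · intro h3
    exact key hX' hX (classEq_symm h) _ hT (gen_trans h1 h3)

section

variable [MonoidalPreadditive 𝓜] [BraidedCategory 𝓜] {ℋ : Type y} [Category.{z} ℋ] [Preadditive ℋ]
  (R : 𝓜 ⥤ ℋ) [R.Additive]

theorem powersRing (hT : IsTensor H) (hz : ∃ C : 𝓜, IsZero C) (T : Twists.{w, x} 𝓜) :
    PowersRing H R T := by
  intro X Y hX hY n hn h
  have h1 : Span (Pw T (H.h X.1)) (H.h Y.1) := by
    refine mem_of_class H (thick_span _) hz hY hn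
      (products_good hT (thick_span _) (fun A B h1 h2 => pw_tensor T _ h1 h2) (fun Z hZ => ?_) h)
    rcases hZ with rfl | ⟨h1, h2⟩
    · exact ⟨hX, pw_self T _⟩
    · refine ⟨h1, span_le (thick_span _) ?_ h2⟩
      rintro _ ⟨m, rfl⟩
      exact pw_twist T _ m
  exact ⟨h1, fun h2 => fullPowers_of_span R T h2 h1⟩

theorem powersInvariance (hz : ∃ C : 𝓜, IsZero C) (T : Twists.{w, x} 𝓜) :
    PowersInvariance H R T := by
  have key : ∀ {X X' : Var k}, SmoothProjective X.1 → SmoothProjective X'.1 →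
      ClassEq H T X X' → FullPowers R T (H.h X.1) → FullPowers R T (H.h X'.1) := by
    intro X X' hX hX' h h1
    refine fullPowers_of_span R T h1 (classEq_transfer hz (thick_span _)
      (fun A m hA => pw_tensor T _ hA (pw_twist T _ m)) (fun A m hA => span_of_twist T hA) hX hX' h
      (pw_self T _))
  intro X X' hX hX' h
  exact ⟨key hX hX' h, key hX' hX (classEq_symm h)⟩

end

end Pool.Agent.U483.KT
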