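import Pool.Agent.U483.KS.Defs

/-!
# Tensor categories of motives generated by one motive: definitions
-/

set_option autoImplicit false

open CategoryTheory CategoryTheory.Limits AlgebraicGeometry MonoidalCategory Pool.Agent.Y116.UV
  Pool.Agent.U483.KM Pool.Agent.U483.GU Pool.Agent.U483.KS

namespace Pool.Agent.U483.KT

universe w x y z

section

variable {𝓜 : Type w} [Category.{x} 𝓜] [Preadditive 𝓜] [HasBinaryBiproducts 𝓜]

/-- The least class of objects which contains `G` and is closed under direct factors and direct sums. -/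
inductive Span (G : 𝓜 → Prop) : 𝓜 → Prop
  | base (A : 𝓜) : G A → Span G A
  | zero (A : 𝓜) : IsZero A → Span G A
  | retract {A B : 𝓜} (s : A ⟶ B) (r : B ⟶ A) : s ≫ r = 𝟙 A → Span G B → Span G A
  | sum (A B : 𝓜) : Span G A → Span G B → Span G (A ⊞ B)

variable [MonoidalCategory 𝓜]

/-- The thick tensor subcategory generated by `M`: the least class of objects which contains `M` and is closed
under direct factors, direct sums, tensor products and duals. -/
inductive Gen (M : 𝓜) : 𝓜 → Prop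
  | base : Gen M M
  | zero (A : 𝓜) : IsZero A → Gen M A
  | retract {A B : 𝓜} (s : A ⟶ B) (r : B ⟶ A) : s ≫ r = 𝟙 A → Gen M B → Gen M A
  | sum (A B : 𝓜) : Gen M A → Gen M B → Gen M (A ⊞ B)
  | tensor (A B : 𝓜) : Gen M A → Gen M B → Gen M (A ⊗ B)
  | dual (A B : 𝓜) : Nonempty (ExactPairing A B) → Gen M A → Gen M B

/-- The tensor power. -/
def pow (A : 𝓜) : ℕ → 𝓜
  | 0 => 𝟙_ 𝓜
  | n + 1 => pow A n ⊗ A

/-- The Tate motives `T m` (`T 1` is the dual of the Lefschetz motive). -/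
structure Twists (𝓜 : Type w) [Category.{x} 𝓜] [MonoidalCategory 𝓜] where
  /-- the Tate motives -/
  T : ℤ → 𝓜
  unit : Nonempty (T 0 ≅ 𝟙_ 𝓜)
  add : ∀ a b : ℤ, Nonempty (T (a + b) ≅ T a ⊗ T b)

/-- The morphisms `𝟙 ⟶ R A` (the Hodge classes) are given by morphisms `𝟙 ⟶ A` (algebraic cycles). -/
def Full {ℋ : Type y} [Category.{z} ℋ] (R : 𝓜 ⥤ ℋ) (A : 𝓜) : Prop :=
  ∀ φ : R.obj (𝟙_ 𝓜) ⟶ R.obj A, ∃ f : 𝟙_ 𝓜 ⟶ A, R.map f = φ

/-- All Hodge classes in the twists `A ⊗ ⋯ ⊗ A ⊗ T m` of the tensor powers of `A` are algebraic. -/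
def FullPowers {ℋ : Type y} [Category.{z} ℋ] (R : 𝓜 ⥤ ℋ) (T : Twists 𝓜) (A : 𝓜) : Prop :=
  ∀ (n : ℕ) (m : ℤ), Full R (pow A n ⊗ T.T m)

end

section

variable {k F : Type} [Field k] [Field F] {𝓜 : Type w} [Category.{x} 𝓜]
  [Preadditive 𝓜] [Linear F 𝓜] [HasBinaryBiproducts 𝓜] [MonoidalCategory 𝓜]

/-- Products of smooth projective schemes are smooth projective, and their motives are tensor products. -/
def IsTensor (H : PureMotives.{w, x} k F 𝓜) : Prop :=
  ∀ {X Y : Sch k} (z : Prd X Y), SmoothProjective X → SmoothProjective Y →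
    SmoothProjective z.Z ∧ Nonempty (H.h z.Z ≅ H.h X ⊗ H.h Y)

/-- The subgroup of `K_0(Var_k)` generated by the classes of all products of members of `B`. -/
def products (B : Sch k → Prop) : AddSubgroup (K0 k) :=
  AddSubgroup.closure {c | ∃ Z : Var k, Products B Z.1 ∧ c = cls Z}

/-- The classes `[V] - [V']` of smooth projective `V`, `V'` with `h V ≅ h V' ⊞ A`. For `V = X × ℙ^m`,
`V' = X × ℙ^(m-1)` this is `[X] 𝕃^m`, for `A = h(X) ⊗ T (-m)`. -/
def Represents (H : PureMotives.{w, x} k F 𝓜) (c : K0 k) (A : 𝓜) : Prop :=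
  ∃ V V' : Var k, SmoothProjective V.1 ∧ SmoothProjective V'.1 ∧
    Nonempty (H.h V.1 ≅ H.h V'.1 ⊞ A) ∧ c = cls V - cls V'

end

end Pool.Agent.U483.KT
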