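import Pool.Agent.U483.KT.Defs
import Pool.Agent.U483.KS.Gen

/-!
# Tensor categories of motives generated by one motive
-/

set_option autoImplicit false

open CategoryTheory CategoryTheory.Limits AlgebraicGeometry MonoidalCategory Pool.Agent.Y116.UV
  Pool.Agent.U483.KM Pool.Agent.U483.GU Pool.Agent.U483.KS

namespace Pool.Agent.U483.KT

universe w x y z

section

variable {k F : Type} [Field k] [Field F] {𝓜 : Type w} [Category.{x} 𝓜]
  [Preadditive 𝓜] [Linear F 𝓜] [HasBinaryBiproducts 𝓜] (H : PureMotives.{w, x} k F 𝓜)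
  {P : 𝓜 → Prop}

lemma dm_good (hP : IsThick P) (hz : ∃ C : 𝓜, IsZero C) (A : 𝓜) {B : 𝓜} (hB : P B) :
    dm F hP hz A B = 0 := by
  have h1 : fact F hP hz A B = ⊤ := by
    rw [Submodule.eq_top_iff']
    intro f
    exact ⟨B, 𝟙 _, f, hB, by simp⟩
  rw [dm, h1, finrank_top, sub_self]

lemma chi_represents (hP : IsThick P) (hz : ∃ C : 𝓜, IsZero C) (A : 𝓜) {χ : K0 k →+ ℤ}
    (hχ : ∀ X : Var k, SmoothProjective X.1 → χ (cls X) = dm F hP hz A (H.h X.1)) {c : K0 k} {B : 𝓜}
    (hc : Represents H c B) : χ c = dm F hP hz A B := by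
  obtain ⟨V, V', hV, hV', ⟨e⟩, rfl⟩ := hc
  rw [map_sub, hχ V hV, hχ V' hV', dm_iso hP hz A e, dm_sum hP hz H.finite, add_sub_cancel_left]

/-- The general form of the argument. -/
theorem mem_of_zero (hP : IsThick P) (hz : ∃ C : 𝓜, IsZero C) {c : K0 k} {A : 𝓜}
    (hc : Represents H c A)
    (h : ∀ χ : K0 k →+ ℤ, (∀ X : Var k, SmoothProjective X.1 → χ (cls X) = dm F hP hz A (H.h X.1)) →
      χ c = 0) : P A := by
  obtain ⟨χ, hχ⟩ := H.measure (dm F hP hz A) (fun A B ⟨e⟩ => dm_iso hP hz _ e)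
    (fun A B => dm_sum hP hz H.finite _ A B)
  have h1 : dm F hP hz A A = 0 := (chi_represents H hP hz A hχ hc).symm.trans (h χ hχ)
  have hfin := H.finite A A
  have h2 : Module.finrank F (fact F hP hz A A) = Module.finrank F (A ⟶ A) := by
    rw [dm, sub_eq_zero] at h1
    exact_mod_cast h1.symm
  have h3 := Submodule.eq_top_of_finrank_eq h2
  obtain ⟨C, u, v, hC, huv⟩ : 𝟙 A ∈ fact F hP hz A A := by
    rw [h3]
    trivial
  exact hP.retract u v huv hC

/-- If a multiple of a class which is represented by the motive `A` is a combination of classes of smooth projective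
schemes with motives in the thick class `P` then `A` is in `P`. -/
theorem mem_of_represents (hP : IsThick P) (hz : ∃ C : 𝓜, IsZero C) {c : K0 k} {A : 𝓜}
    (hc : Represents H c A) {n : ℤ} (hn : n ≠ 0)
    (h : n • c ∈ goodGroup fun Y => P (H.h Y)) : P A := by
  refine mem_of_zero H hP hz hc fun χ hχ => ?_
  have hker : (goodGroup fun Y => P (H.h Y)) ≤ χ.ker := by
    refine (AddSubgroup.closure_le _).2 ?_
    rintro _ ⟨Y, hY, hPY, rfl⟩
    change χ (cls Y) = 0
    rw [hχ Y hY, dm_good hP hz A hPY]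
  have h0 : χ (n • c) = 0 := hker h
  rw [map_zsmul, smul_eq_mul] at h0
  exact (mul_eq_zero.1 h0).resolve_left hn

/-- Two classes with equal multiples. -/
theorem represents_compare (hP : IsThick P) (hz : ∃ C : 𝓜, IsZero C) {c c' : K0 k} {A A' : 𝓜}
    (hc : Represents H c A) (hc' : Represents H c' A') {n : ℤ} (hn : n ≠ 0) (h : n • c = n • c')
    (hA : P A) : P A' := by
  refine mem_of_zero H hP hz hc' fun χ hχ => ?_
  have h0 : n * χ c = n * χ c' := by
    have := congrArg χ h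
    rwa [map_zsmul, map_zsmul, smul_eq_mul, smul_eq_mul] at this
  rw [← mul_left_cancel₀ hn h0, chi_represents H hP hz A' hχ hc, dm_good hP hz A' hA]

end

section

variable {𝓜 : Type w} [Category.{x} 𝓜] [Preadditive 𝓜] [HasBinaryBiproducts 𝓜]

lemma thick_span (G : 𝓜 → Prop) : IsThick (Span G) where
  zero := Span.zero
  retract := Span.retract
  sum := Span.sum

lemma thick_iso {P : 𝓜 → Prop} (hP : IsThick P) {A B : 𝓜} (e : A ≅ B) (h : P A) : P B :=
  hP.retract e.inv e.hom e.inv_hom_id h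

lemma span_le {G P : 𝓜 → Prop} (hP : IsThick P) (h : ∀ A, G A → P A) {A : 𝓜} (hA : Span G A) :
    P A := by
  induction hA with
  | base A hA => exact h A hA
  | zero A hA => exact hP.zero A hA
  | retract s r hsr _ ih => exact hP.retract s r hsr ih
  | sum A B _ _ i1 i2 => exact hP.sum A B i1 i2

variable [MonoidalCategory 𝓜]

lemma thick_gen (M : 𝓜) : IsThick (Gen M) where
  zero := Gen.zero
  retract := Gen.retract
  sum := Gen.sum

/-- Transitivity. -/
lemma gen_trans {M N A : 𝓜} (h : Gen M N) (hA : Gen N A) : Gen M A := by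
  induction hA with
  | base => exact h
  | zero A hA => exact Gen.zero A hA
  | retract s r hsr _ ih => exact Gen.retract s r hsr ih
  | sum A B _ _ i1 i2 => exact Gen.sum A B i1 i2
  | tensor A B _ _ i1 i2 => exact Gen.tensor A B i1 i2
  | dual A B h _ ih => exact Gen.dual A B h ih

variable [MonoidalPreadditive 𝓜]

/-- The class `Span G` is closed under tensor products if this is true for `G`. -/
theorem span_tensor {G : 𝓜 → Prop} (hG : ∀ A B, G A → G B → Span G (A ⊗ B)) {A B : 𝓜}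
    (hA : Span G A) (hB : Span G B) : Span G (A ⊗ B) := by
  have right : ∀ A : 𝓜, G A → ∀ B : 𝓜, Span G B → Span G (A ⊗ B) := by
    intro A hA B hB
    induction hB with
    | base B hB => exact hG A B hA hB
    | zero B hB =>
      refine Span.zero _ ((IsZero.iff_id_eq_zero _).2 ?_)
      rw [← MonoidalCategory.whiskerLeft_id, hB.eq_of_src (𝟙 B) 0, MonoidalPreadditive.whiskerLeft_zero]
    | retract s r hsr _ ih =>
      refine Span.retract (A ◁ s) (A ◁ r) ?_ ih
      rw [← MonoidalCategory.whiskerLeft_comp, hsr, MonoidalCategory.whiskerLeft_id]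
    | sum B C _ _ i1 i2 =>
      refine Span.retract (B := (A ⊗ B) ⊞ (A ⊗ C)) (biprod.lift (A ◁ biprod.fst) (A ◁ biprod.snd))
        (biprod.desc (A ◁ biprod.inl) (A ◁ biprod.inr)) ?_ (Span.sum _ _ i1 i2)
      rw [biprod.lift_desc, ← MonoidalCategory.whiskerLeft_comp, ← MonoidalCategory.whiskerLeft_comp,
        ← MonoidalPreadditive.whiskerLeft_add, biprod.total, MonoidalCategory.whiskerLeft_id]
  induction hA with
  | base A hA => exact right A hA B hB
  | zero A hA =>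
    refine Span.zero _ ((IsZero.iff_id_eq_zero _).2 ?_)
    rw [← MonoidalCategory.id_whiskerRight, hA.eq_of_src (𝟙 A) 0, MonoidalPreadditive.zero_whiskerRight]
  | retract s r hsr _ ih =>
    refine Span.retract (s ▷ B) (r ▷ B) ?_ ih
    rw [← MonoidalCategory.comp_whiskerRight, hsr, MonoidalCategory.id_whiskerRight]
  | sum A C _ _ i1 i2 =>
    refine Span.retract (B := (A ⊗ B) ⊞ (C ⊗ B)) (biprod.lift (biprod.fst ▷ B) (biprod.snd ▷ B))
      (biprod.desc (biprod.inl ▷ B) (biprod.inr ▷ B)) ?_ (Span.sum _ _ i1 i2)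
    rw [biprod.lift_desc, ← MonoidalCategory.comp_whiskerRight, ← MonoidalCategory.comp_whiskerRight,
      ← MonoidalPreadditive.add_whiskerRight, biprod.total, MonoidalCategory.id_whiskerRight]

end

section

variable {𝓜 : Type w} [Category.{x} 𝓜] [MonoidalCategory 𝓜]

lemma pow_add (A : 𝓜) (n m : ℕ) : Nonempty (pow A (n + m) ≅ pow A n ⊗ pow A m) := by
  induction m with
  | zero => exact ⟨(ρ_ (pow A n)).symm⟩
  | succ m ih =>
    obtain ⟨e⟩ := ih
    exact ⟨whiskerRightIso e A ≪≫ α_ _ _ _⟩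

variable [BraidedCategory 𝓜]

lemma middle (A B C D : 𝓜) : Nonempty ((A ⊗ B) ⊗ (C ⊗ D) ≅ (A ⊗ C) ⊗ (B ⊗ D)) := by
  refine ⟨α_ A B (C ⊗ D) ≪≫ whiskerLeftIso A ((α_ B C D).symm ≪≫ whiskerRightIso (β_ B C) D ≪≫
    α_ C B D) ≪≫ (α_ A C (B ⊗ D)).symm⟩

end

section

variable {𝓜 : Type w} [Category.{x} 𝓜] [Preadditive 𝓜] [HasBinaryBiproducts 𝓜]
  [MonoidalCategory 𝓜] [MonoidalPreadditive 𝓜] [BraidedCategory 𝓜]

/-- the twists of the powers of `A` -/
def Pw (T : Twists.{w, x} 𝓜) (A : 𝓜) (B : 𝓜) : Prop := ∃ (n : ℕ) (m : ℤ), B = pow A n ⊗ T.T m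

lemma pw_tensor (T : Twists.{w, x} 𝓜) (A : 𝓜) {B C : 𝓜} (hB : Span (Pw T A) B)
    (hC : Span (Pw T A) C) : Span (Pw T A) (B ⊗ C) := by
  refine span_tensor ?_ hB hC
  rintro _ _ ⟨n, m, rfl⟩ ⟨n', m', rfl⟩
  obtain ⟨e⟩ := middle (pow A n) (T.T m) (pow A n') (T.T m')
  obtain ⟨e1⟩ := pow_add A n n'
  obtain ⟨e2⟩ := T.add m m'
  exact thick_iso (thick_span _) (tensorIso e1 e2 ≪≫ e.symm) (Span.base _ ⟨n + n', m + m', rfl⟩)

lemma pw_twist (T : Twists.{w, x} 𝓜) (A : 𝓜) (m : ℤ) : Span (Pw T A) (T.T m) :=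
  thick_iso (thick_span _) (λ_ (T.T m)) (Span.base _ ⟨0, m, rfl⟩)

lemma pw_unit (T : Twists.{w, x} 𝓜) (A : 𝓜) : Span (Pw T A) (𝟙_ 𝓜) := by
  obtain ⟨e⟩ := T.unit
  exact thick_iso (thick_span _) e (pw_twist T A 0)

lemma pw_self (T : Twists.{w, x} 𝓜) (A : 𝓜) : Span (Pw T A) A := by
  obtain ⟨e⟩ := T.unit
  exact thick_iso (thick_span _) (whiskerLeftIso _ e ≪≫ ρ_ _ ≪≫ λ_ A) (Span.base _ ⟨1, 0, rfl⟩)

lemma pw_pow (T : Twists.{w, x} 𝓜) (A : 𝓜) {B : 𝓜} (hB : Span (Pw T A) B) (n : ℕ) :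
    Span (Pw T A) (pow B n) := by
  induction n with
  | zero => exact pw_unit T A
  | succ n ih => exact pw_tensor T A ih hB

variable {ℋ : Type y} [Category.{z} ℋ] [Preadditive ℋ] (R : 𝓜 ⥤ ℋ) [R.Additive]

omit [MonoidalPreadditive 𝓜] [BraidedCategory 𝓜] in
lemma thick_full : IsThick (Full R) where
  zero A h := fun φ => ⟨0, by
    rw [Functor.map_zero]
    exact ((R.map_isZero h).eq_of_tgt _ _)⟩
  retract s r h hB := fun φ => by
    obtain ⟨f, hf⟩ := hB (φ ≫ R.map s)
    refine ⟨f ≫ r, ?_⟩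
    rw [R.map_comp, hf, Category.assoc, ← R.map_comp, h, R.map_id, Category.comp_id]
  sum A B hA hB := fun φ => by
    obtain ⟨f, hf⟩ := hA (φ ≫ R.map biprod.fst)
    obtain ⟨g, hg⟩ := hB (φ ≫ R.map biprod.snd)
    refine ⟨f ≫ biprod.inl + g ≫ biprod.inr, ?_⟩
    rw [Functor.map_add, R.map_comp, R.map_comp, hf, hg, Category.assoc, Category.assoc,
      ← R.map_comp, ← R.map_comp, ← Preadditive.comp_add, ← Functor.map_add, biprod.total,
      R.map_id, Category.comp_id]

/-- If all Hodge classes in the powers of `A` are algebraic then this is true for the objects generated by `A`. -/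
theorem fullPowers_of_span (T : Twists.{w, x} 𝓜) {A B : 𝓜} (hA : FullPowers R T A)
    (hB : Span (Pw T A) B) : FullPowers R T B := by
  intro n m
  refine span_le (thick_full R) ?_ (pw_tensor T A (pw_pow T A hB n) (pw_twist T A m))
  rintro _ ⟨n', m', rfl⟩
  exact hA n' m'

/-- A twist is generated by `A` only if this is true for the object. -/
lemma span_of_twist (T : Twists.{w, x} 𝓜) {A B : 𝓜} {m : ℤ} (hB : Span (Pw T A) (B ⊗ T.T m)) :
    Span (Pw T A) B := by
  obtain ⟨e⟩ := T.add m (-m)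
  obtain ⟨e0⟩ := T.unit
  rw [add_neg_cancel] at e
  exact thick_iso (thick_span _) (α_ _ _ _ ≪≫ whiskerLeftIso B (e.symm ≪≫ e0) ≪≫ ρ_ B)
    (pw_tensor T A hB (pw_twist T A (-m)))

end

end Pool.Agent.U483.KT
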